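import Mathlib
import Pool.Agent.W943.Cut.Def

/-!
# Trees of indices and families of matrices of small tree width
-/

namespace Pool.Agent.W943.Tw

open MvPolynomial

/-- Binary trees whose leaves carry sets of indices. -/
inductive Tree (R : ℕ) : Type
  | leaf (S : Finset (Fin R)) : Tree R
  | node (l r : Tree R) : Tree R

/-- The set of all indices carried by the leaves of the tree. -/
def Tree.set {R : ℕ} : Tree R → Finset (Fin R)
  | .leaf S => S
  | .node l r => l.set ∪ r.set

/-- `t.Good b P`: the leaves carry at most `b` indices, the sets of indices of the two subtrees of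
each node are disjoint, and `P` holds for the set of indices of each subtree. -/
def Tree.Good {R : ℕ} (b : ℕ) (P : Finset (Fin R) → Prop) : Tree R → Prop
  | .leaf S => S.card ≤ b ∧ P S
  | .node l r => Disjoint l.set r.set ∧ P (l.set ∪ r.set) ∧ l.Good b P ∧ r.Good b P

/-- The cut of the family `B` of matrices across the set `T` of indices has dimension at most `w`:
the intersection of `∑_{s ∈ T} Im B_s` and `∑_{s ∉ T} Im B_s`, and the same intersection for the
transposed matrices, have dimension at most `w`. -/
def CutLE {N N' R : ℕ} (w : ℕ) (B : Fin R → Matrix (Fin N) (Fin N') ℂ) (T : Finset (Fin R)) :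
    Prop :=
  Module.finrank ℂ ↥((⨆ s : Fin R, ⨆ _ : s ∈ T, LinearMap.range (B s).mulVecLin) ⊓
    (⨆ s : Fin R, ⨆ _ : s ∉ T, LinearMap.range (B s).mulVecLin)) ≤ w ∧
  Module.finrank ℂ ↥((⨆ s : Fin R, ⨆ _ : s ∈ T, LinearMap.range (B s).transpose.mulVecLin) ⊓
    (⨆ s : Fin R, ⨆ _ : s ∉ T, LinearMap.range (B s).transpose.mulVecLin)) ≤ w

/-- The matrices `B_0, …, B_{R-1}` have tree width at most `w` with leaves of size at most `b`: for
some tree with disjoint leaves which carries all indices, all cuts across the subtrees have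
dimension at most `w`. -/
def TreeWidth {N N' R : ℕ} (b w : ℕ) (B : Fin R → Matrix (Fin N) (Fin N') ℂ) : Prop :=
  ∃ t : Tree R, t.set = Finset.univ ∧ t.Good b (CutLE w B)

/-- `Hidden b w A`: in unknown linearly independent linear forms `L_0, …, L_{R-1}` the symbolic
matrix `∑ x_k A_k` is `∑_t L_t(x) B_t` for matrices `B_t` of tree width at most `w` with leaves of
size at most `b`. -/
def Hidden {N N' n : ℕ} (b w : ℕ) (A : Fin n → Matrix (Fin N) (Fin N') ℂ) : Prop :=
  ∃ (R : ℕ) (B : Fin R → Matrix (Fin N) (Fin N') ℂ) (L : Fin R → Fin n → ℂ),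
    LinearIndependent ℂ L ∧ TreeWidth b w B ∧ ∀ k, A k = ∑ t, L t k • B t

end Pool.Agent.W943.Tw
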