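import Mathlib
import Pool.Agent.W943.Cut.C2

/-!
Polynomials with small ranks across the sets of a laminar family of sets of variables.
-/

set_option autoImplicit false

namespace Pool.Agent.W943.Tw

open MvPolynomial Pool.Agent.W943.Cut

variable {n : ℕ}

theorem aeval_mem_of {B : Type*} [CommSemiring B] [Algebra ℂ B] {A : Subalgebra ℂ B}
    {g : Fin n → B} {S : Set (Fin n)} (hg : ∀ i ∈ S, g i ∈ A) {f : MvPolynomial (Fin n) ℂ}
    (hf : f ∈ supported ℂ S) : aeval g f ∈ A := by
  have h1 : (supported ℂ S).map (aeval g) ≤ A := by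
    unfold supported
    rw [AlgHom.map_adjoin]
    refine Algebra.adjoin_le ?_
    rintro _ ⟨_, ⟨i, hi, rfl⟩, rfl⟩
    rw [aeval_X]
    exact hg i hi
  exact h1 ⟨f, hf, rfl⟩

theorem aeval_congr_of {B : Type*} [CommSemiring B] [Algebra ℂ B]
    {g g' : Fin n → B} {S : Set (Fin n)} (hg : ∀ i ∈ S, g i = g' i) {f : MvPolynomial (Fin n) ℂ}
    (hf : f ∈ supported ℂ S) : aeval g f = aeval g' f := by
  have h1 : supported ℂ S ≤ AlgHom.equalizer (aeval g) (aeval g') := by
    unfold supported
    refine Algebra.adjoin_le ?_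
    rintro _ ⟨i, hi, rfl⟩
    rw [SetLike.mem_coe, AlgHom.mem_equalizer, aeval_X, aeval_X]
    exact hg i hi
  exact h1 hf

theorem supported_inter {S S' : Set (Fin n)} {f : MvPolynomial (Fin n) ℂ}
    (h : f ∈ supported ℂ S) (h' : f ∈ supported ℂ S') : f ∈ supported ℂ (S ∩ S') := by
  rw [mem_supported] at h h' ⊢
  exact Set.subset_inter h h'

/-- `f` is a sum of `W` products of a polynomial in the variables in `T` and one in the other
variables -/
def RankLE (W : ℕ) (T : Set (Fin n)) (f : MvPolynomial (Fin n) ℂ) : Prop :=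
  ∃ p q : Fin W → MvPolynomial (Fin n) ℂ, (∀ a, p a ∈ supported ℂ T) ∧
    (∀ a, q a ∈ supported ℂ Tᶜ) ∧ f = ∑ a, p a * q a

theorem RankLE.compl {W : ℕ} {T : Set (Fin n)} {f : MvPolynomial (Fin n) ℂ} (h : RankLE W T f) :
    RankLE W Tᶜ f := by
  obtain ⟨p, q, hp, hq, rfl⟩ := h
  refine ⟨q, p, hq, fun a => ?_, Finset.sum_congr rfl fun a _ => mul_comm _ _⟩
  rw [compl_compl]
  exact hp a

theorem rankLE_of_supported {W : ℕ} (hW : 1 ≤ W) {T : Set (Fin n)} {f : MvPolynomial (Fin n) ℂ}
    (hf : f ∈ supported ℂ T) : RankLE W T f := by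
  refine ⟨fun a => if a = ⟨0, hW⟩ then f else 0, fun _ => 1, fun a => ?_, fun a => ?_, ?_⟩
  · dsimp only
    split_ifs
    · exact hf
    · exact Subalgebra.zero_mem _
  · exact Subalgebra.one_mem _
  · simp

open Classical in
/-- substitution of constants for the variables outside `T` -/
noncomputable def sub (T : Set (Fin n)) (x : Fin n → ℂ) :
    MvPolynomial (Fin n) ℂ →ₐ[ℂ] MvPolynomial (Fin n) ℂ :=
  aeval (fun i => if i ∈ T then X i else C (x i))

theorem sub_fix {T : Set (Fin n)} (x : Fin n → ℂ) {f : MvPolynomial (Fin n) ℂ}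
    (hf : f ∈ supported ℂ T) : sub T x f = f := by
  unfold sub
  rw [aeval_congr_of (g' := X) (fun i hi => by simp [hi]) hf, aeval_X_left_apply]

theorem sub_const {T : Set (Fin n)} (x : Fin n → ℂ) {f : MvPolynomial (Fin n) ℂ}
    (hf : f ∈ supported ℂ Tᶜ) : sub T x f = C (eval x f) := by
  unfold sub
  rw [aeval_congr_of (g' := fun i => C (x i)) (fun i hi => by
    rw [if_neg]; exact hi) hf]
  have h1 := MvPolynomial.aeval_algebraMap_apply (MvPolynomial (Fin n) ℂ) x f
  rw [show (fun i => (C (x i) : MvPolynomial (Fin n) ℂ)) =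
    (algebraMap ℂ (MvPolynomial (Fin n) ℂ)) ∘ x from rfl, h1]
  rw [← MvPolynomial.coe_aeval_eq_eval]
  rfl

theorem sub_mem (T : Set (Fin n)) (x : Fin n → ℂ) (f : MvPolynomial (Fin n) ℂ) :
    sub T x f ∈ supported ℂ T := by
  unfold sub
  refine aeval_mem_of (S := Set.univ) (fun i _ => ?_) (by rw [supported_univ]; trivial)
  split_ifs with h
  · exact X_mem_supported.2 h
  · exact Subalgebra.algebraMap_mem _ _

theorem sub_supp (T : Set (Fin n)) (x : Fin n → ℂ) {S : Set (Fin n)} {f : MvPolynomial (Fin n) ℂ}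
    (hf : f ∈ supported ℂ S) : sub T x f ∈ supported ℂ S := by
  unfold sub
  refine aeval_mem_of (S := S) (fun i hi => ?_) hf
  split_ifs with h
  · exact X_mem_supported.2 hi
  · exact Subalgebra.algebraMap_mem _ _

/-- the span of the results of all substitutions for the variables outside `T` -/
noncomputable def slices (T : Set (Fin n)) (f : MvPolynomial (Fin n) ℂ) :
    Submodule ℂ (MvPolynomial (Fin n) ℂ) :=
  Submodule.span ℂ (Set.range fun x => sub T x f)

theorem slices_mem {T : Set (Fin n)} {f g : MvPolynomial (Fin n) ℂ} (hg : g ∈ slices T f) :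
    g ∈ supported ℂ T := by
  have h1 : slices T f ≤ Subalgebra.toSubmodule (supported ℂ T) := by
    refine Submodule.span_le.2 ?_
    rintro _ ⟨x, rfl⟩
    exact sub_mem T x f
  exact h1 hg

theorem slices_supp {T S : Set (Fin n)} {f g : MvPolynomial (Fin n) ℂ} (hf : f ∈ supported ℂ S)
    (hg : g ∈ slices T f) : g ∈ supported ℂ S := by
  have h1 : slices T f ≤ Subalgebra.toSubmodule (supported ℂ S) := by
    refine Submodule.span_le.2 ?_
    rintro _ ⟨x, rfl⟩
    exact sub_supp T x hf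
  exact h1 hg

theorem rank_slice_sub {W : ℕ} {T T' : Set (Fin n)} (hT : T' ⊆ T) {f g : MvPolynomial (Fin n) ℂ}
    (h : RankLE W T' f) (hg : g ∈ slices T f) : RankLE W T' g := by
  obtain ⟨p, q, hp, hq, rfl⟩ := h
  obtain ⟨c, rfl⟩ := Finsupp.mem_span_range_iff_exists_finsupp.1 hg
  refine ⟨p, fun a => c.sum fun x b => b • sub T x (q a), hp, fun a => ?_, ?_⟩
  · exact Subalgebra.sum_mem _ fun x _ => Subalgebra.smul_mem _ (sub_supp T x (hq a)) _
  · unfold Finsupp.sum
    simp only [Finset.mul_sum, map_sum, map_mul, Finset.smul_sum]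
    rw [Finset.sum_comm]
    refine Finset.sum_congr rfl fun a _ => Finset.sum_congr rfl fun x _ => ?_
    rw [sub_fix x (supported_mono hT (hp a)), mul_smul_comm]

theorem rank_slice {W : ℕ} (hW : 1 ≤ W) {T T' : Set (Fin n)}
    (hT : T' ⊆ T ∨ T ⊆ T' ∨ T' ⊆ Tᶜ ∨ Tᶜ ⊆ T') {f g : MvPolynomial (Fin n) ℂ}
    (h : RankLE W T' f) (hg : g ∈ slices T f) : RankLE W T' g := by
  rcases hT with hT | hT | hT | hT
  · exact rank_slice_sub hT h hg
  · exact rankLE_of_supported hW (supported_mono hT (slices_mem hg))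
  · have h1 : RankLE W T'ᶜ g := rankLE_of_supported hW
      (supported_mono (Set.subset_compl_comm.1 hT) (slices_mem hg))
    have h2 := h1.compl
    rwa [compl_compl] at h2
  · have h1 := (rank_slice_sub (T := T) (T' := T'ᶜ) (Set.compl_subset_comm.1 hT) h.compl hg).compl
    rwa [compl_compl] at h1

/-- reduction of the number of products -/
theorem rankLE_of_dep {r : ℕ} {T : Set (Fin n)} (p q : Fin (r + 1) → MvPolynomial (Fin n) ℂ)
    (hp : ∀ a, p a ∈ supported ℂ T) (hq : ∀ a, q a ∈ supported ℂ Tᶜ)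
    (h : ¬ LinearIndependent ℂ p) : RankLE r T (∑ a, p a * q a) := by
  rw [Fintype.linearIndependent_iff] at h
  push Not at h
  obtain ⟨b, hb, a₀, ha₀⟩ := h
  refine ⟨fun i => p (a₀.succAbove i),
    fun i => q (a₀.succAbove i) - C (b (a₀.succAbove i) / b a₀) * q a₀, fun i => hp _,
    fun i => Subalgebra.sub_mem _ (hq _) (Subalgebra.mul_mem _ (Subalgebra.algebraMap_mem _ _)
      (hq _)), ?_⟩
  have h1 : p a₀ = - ∑ i, C (b (a₀.succAbove i) / b a₀) * p (a₀.succAbove i) := by
    rw [Fin.sum_univ_succAbove _ a₀] at hb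
    have h2 : p a₀ = - ((b a₀)⁻¹ • ∑ i, b (a₀.succAbove i) • p (a₀.succAbove i)) := by
      rw [← smul_neg, ← eq_neg_of_add_eq_zero_left hb, smul_smul, inv_mul_cancel₀ ha₀, one_smul]
    rw [h2, Finset.smul_sum]
    congr 1
    refine Finset.sum_congr rfl fun i _ => ?_
    rw [smul_smul, MvPolynomial.smul_eq_C_mul, div_eq_inv_mul]
  rw [Fin.sum_univ_succAbove _ a₀, h1]
  simp only [mul_sub, Finset.sum_sub_distrib, neg_mul, Finset.sum_mul]
  rw [add_comm, ← sub_eq_add_neg]
  congr 1
  refine Finset.sum_congr rfl fun i _ => by ring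

theorem exists_min {W : ℕ} {T : Set (Fin n)} {f : MvPolynomial (Fin n) ℂ} (h : RankLE W T f) :
    ∃ r ≤ W, ∃ p q : Fin r → MvPolynomial (Fin n) ℂ, (∀ a, p a ∈ supported ℂ T) ∧
      (∀ a, q a ∈ supported ℂ Tᶜ) ∧ f = ∑ a, p a * q a ∧ LinearIndependent ℂ p ∧
      LinearIndependent ℂ q := by
  classical
  have hex : ∃ r, RankLE r T f := ⟨W, h⟩
  obtain ⟨p, q, hp, hq, hf⟩ := Nat.find_spec hex
  refine ⟨Nat.find hex, Nat.find_min' hex h, p, q, hp, hq, hf, ?_, ?_⟩
  · by_contra hcon
    obtain ⟨r, hr⟩ : ∃ r, Nat.find hex = r + 1 := by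
      rcases hr : Nat.find hex with _ | r
      · exfalso
        apply hcon
        have : IsEmpty (Fin (Nat.find hex)) := by rw [hr]; infer_instance
        exact linearIndependent_empty_type
      · exact ⟨r, rfl⟩
    refine Nat.find_min hex (m := r) (by omega) ?_
    rw [hf]
    generalize Nat.find hex = R at *
    subst hr
    exact rankLE_of_dep p q hp hq hcon
  · by_contra hcon
    obtain ⟨r, hr⟩ : ∃ r, Nat.find hex = r + 1 := by
      rcases hr : Nat.find hex with _ | r
      · exfalso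
        apply hcon
        have : IsEmpty (Fin (Nat.find hex)) := by rw [hr]; infer_instance
        exact linearIndependent_empty_type
      · exact ⟨r, rfl⟩
    refine Nat.find_min hex (m := r) (by omega) ?_
    rw [hf]
    generalize Nat.find hex = R at *
    subst hr
    have h1 := (rankLE_of_dep (T := Tᶜ) q p hq (fun a => by rw [compl_compl]; exact hp a)
      hcon).compl
    rw [compl_compl] at h1
    rwa [Finset.sum_congr rfl fun a _ => mul_comm (p a) (q a)]

theorem exists_dual_eval {r : ℕ} (q : Fin r → MvPolynomial (Fin n) ℂ)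
    (hq : LinearIndependent ℂ q) (i : Fin r) :
    ∃ c : (Fin n → ℂ) →₀ ℂ, ∀ l, (c.sum fun x a => a * eval x (q l)) = if l = i then 1 else 0 := by
  classical
  set v : (Fin n → ℂ) → Fin r → ℂ := fun x l => eval x (q l) with hv
  have htop : Submodule.span ℂ (Set.range v) = ⊤ := by
    by_contra hcon
    obtain ⟨φ, hφ0, hφ⟩ := Submodule.exists_le_ker_of_lt_top _ (lt_top_iff_ne_top.2 hcon)
    apply hφ0
    have h1 : ∑ l, φ (Pi.single l 1) • q l = 0 := by
      apply MvPolynomial.funext
      intro x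
      rw [map_sum, map_zero]
      have h2 : φ (v x) = 0 := hφ (Submodule.subset_span ⟨x, rfl⟩)
      rw [LinearMap.pi_apply_eq_sum_univ φ (v x)] at h2
      rw [← h2]
      refine Finset.sum_congr rfl fun l _ => ?_
      rw [smul_eval, smul_eq_mul, mul_comm]
      congr 2
      funext j
      simp [Pi.single_apply, eq_comm]
    have h3 := Fintype.linearIndependent_iff.1 hq _ h1
    apply LinearMap.pi_ext'
    intro l
    ext
    simpa using h3 l
  have h1 : (Pi.single i (1 : ℂ) : Fin r → ℂ) ∈ Submodule.span ℂ (Set.range v) := by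
    rw [htop]; trivial
  obtain ⟨c, hc⟩ := Finsupp.mem_span_range_iff_exists_finsupp.1 h1
  refine ⟨c, fun l => ?_⟩
  have h2 := congrFun hc l
  rw [Pi.single_apply] at h2
  rw [← h2]
  unfold Finsupp.sum
  rw [Finset.sum_apply]
  rfl

theorem mem_slices {r : ℕ} {T : Set (Fin n)} (p q : Fin r → MvPolynomial (Fin n) ℂ)
    (hp : ∀ a, p a ∈ supported ℂ T) (hq : ∀ a, q a ∈ supported ℂ Tᶜ)
    (hli : LinearIndependent ℂ q) (i : Fin r) : p i ∈ slices T (∑ a, p a * q a) := by
  obtain ⟨c, hc⟩ := exists_dual_eval q hli i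
  refine Finsupp.mem_span_range_iff_exists_finsupp.2 ⟨c, ?_⟩
  have h1 : ∀ x, sub T x (∑ a, p a * q a) = ∑ a, eval x (q a) • p a := by
    intro x
    rw [map_sum]
    refine Finset.sum_congr rfl fun a _ => ?_
    rw [map_mul, sub_fix x (hp a), sub_const x (hq a), MvPolynomial.smul_eq_C_mul, mul_comm]
  simp only [h1]
  unfold Finsupp.sum at hc ⊢
  simp only [Finset.smul_sum, smul_smul]
  rw [Finset.sum_comm]
  simp only [← Finset.sum_smul, hc]
  simp

theorem sum_slices {r : ℕ} {T : Set (Fin n)} (p : Fin r → MvPolynomial (Fin n) ℂ)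
    {f : MvPolynomial (Fin n) ℂ} (hp : ∀ a, p a ∈ slices T f) (c : Fin r → ℂ) :
    ∑ a, C (c a) * p a ∈ slices T f := by
  refine Submodule.sum_mem _ fun a _ => ?_
  rw [← MvPolynomial.smul_eq_C_mul]
  exact Submodule.smul_mem _ _ (hp a)

/-- Polynomials with ranks at most `W` across the sets of a laminar family with balanced
members. -/
theorem laminar_mem (𝓢 : Set (Set (Fin n)))
    (hlam : ∀ T ∈ 𝓢, ∀ T' ∈ 𝓢, T' ⊆ T ∨ T ⊆ T' ∨ T' ⊆ Tᶜ) (k : ℕ)
    (hbal : ∀ V : Finset (Fin n), k < V.card → ∃ T : Finset (Fin n), (T : Set (Fin n)) ∈ 𝓢 ∧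
      V.card ≤ 3 * (V ∩ T).card ∧ 3 * (V ∩ T).card ≤ 2 * V.card) {W : ℕ} (hW : 1 ≤ W) :
    ∀ (d : ℕ) (V : Finset (Fin n)) (f : MvPolynomial (Fin n) ℂ), 2 ^ d * V.card ≤ k * 3 ^ d →
      f ∈ supported ℂ (V : Set (Fin n)) → (∀ T ∈ 𝓢, RankLE W T f) → f ≠ 0 →
      Cls n (k + (W - 1) * d) f := by
  classical
  intro d
  induction d with
  | zero =>
    intro V f hV hf _ h0
    rw [pow_zero, one_mul, pow_zero, mul_one] at hV
    rw [mul_zero, add_zero]
    exact Cls.few' V hV hf h0
  | succ d ih =>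
    intro V f hV hf hr h0
    by_cases hk : V.card ≤ k
    · exact (Cls.few' V hk hf h0).mono (Nat.le_add_right _ _)
    push Not at hk
    obtain ⟨T, hT, hb1, hb2⟩ := hbal V hk
    obtain ⟨r, hrW, p, q, hp, hq, hfe, hpi, hqi⟩ := exists_min (hr _ hT)
    have hcard : (V ∩ T).card + (V \ T).card = V.card := by
      rw [Finset.inter_comm]
      have := Finset.card_sdiff_add_card_inter V T
      rw [Finset.inter_comm] at this
      omega
    have hV' : 2 ^ d * V.card * 2 ≤ k * 3 ^ d * 3 := by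
      rw [pow_succ, pow_succ] at hV
      calc 2 ^ d * V.card * 2 = 2 ^ d * 2 * V.card := by ring
        _ ≤ k * (3 ^ d * 3) := hV
        _ = _ := by ring
    have h1 : 2 ^ d * (V ∩ T).card ≤ k * 3 ^ d := by
      have : 2 ^ d * (3 * (V ∩ T).card) ≤ 2 ^ d * (2 * V.card) := Nat.mul_le_mul_left _ hb2
      have e1 : 2 ^ d * (3 * (V ∩ T).card) = 2 ^ d * (V ∩ T).card * 3 := by ring
      have e2 : 2 ^ d * (2 * V.card) = 2 ^ d * V.card * 2 := by ring
      omega
    have h2 : 2 ^ d * (V \ T).card ≤ k * 3 ^ d := by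
      have : 2 ^ d * (3 * (V \ T).card) ≤ 2 ^ d * (2 * V.card) :=
        Nat.mul_le_mul_left _ (by omega)
      have e1 : 2 ^ d * (3 * (V \ T).card) = 2 ^ d * (V \ T).card * 3 := by ring
      have e2 : 2 ^ d * (2 * V.card) = 2 ^ d * V.card * 2 := by ring
      omega
    have hps : ∀ a, p a ∈ slices (T : Set (Fin n)) f := by
      rw [hfe]
      exact mem_slices p q hp hq hqi
    have hqs : ∀ a, q a ∈ slices (T : Set (Fin n))ᶜ f := by
      have h3 : f = ∑ a, q a * p a := by
        rw [hfe]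
        exact Finset.sum_congr rfl fun a _ => mul_comm _ _
      rw [h3]
      exact mem_slices q p hq (fun a => by rw [compl_compl]; exact hp a) hpi
    have h5 := Cls.cutSpan (n := n) (s := k + (W - 1) * d) (T : Set (Fin n)) p q hp hq ?_ ?_
      (by rw [← hfe]; exact h0)
    · rw [← hfe] at h5
      refine h5.mono ?_
      rw [mul_add, mul_one]
      omega
    · intro c hc
      have hg := sum_slices p hps c
      refine ih (V ∩ T) _ h1 ?_ (fun T' hT' => ?_) hc
      · rw [Finset.coe_inter]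
        exact supported_inter (slices_supp hf hg) (slices_mem hg)
      · refine rank_slice hW ?_ (hr _ hT') hg
        rcases hlam _ hT _ hT' with h | h | h
        · exact Or.inl h
        · exact Or.inr (Or.inl h)
        · exact Or.inr (Or.inr (Or.inl h))
    · intro c hc
      have hg := sum_slices q hqs c
      refine ih (V \ T) _ h2 ?_ (fun T' hT' => ?_) hc
      · rw [Finset.coe_sdiff, Set.sdiff_eq]
        exact supported_inter (slices_supp hf hg) (slices_mem hg)
      · refine rank_slice hW ?_ (hr _ hT') hg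
        rw [compl_compl]
        rcases hlam _ hT _ hT' with h | h | h
        · exact Or.inr (Or.inr (Or.inl h))
        · exact Or.inr (Or.inr (Or.inr h))
        · exact Or.inl h

end Pool.Agent.W943.Tw
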