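import Mathlib
import Pool.Agent.W943.Nis1
import Pool.Agent.W943.Nis2
import Pool.Agent.W943.Nis3
import Pool.Agent.W943.Tw.T1

/-!
Families of matrices with small cuts across the members of a family of sets of indices; the
determinants of their combinations have small ranks across these sets.
-/

set_option autoImplicit false

namespace Pool.Agent.W943.Tw

open Module

section cuts

variable {F : Type*} [Field F] {κ : Type*}

/-- the dimensions of the cuts of the family of subspaces across the sets in `𝓠` are at most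
`w` -/
def Cuts {V : Type*} [AddCommGroup V] [Module F V] (𝓠 : Set (Set κ)) (w : ℕ)
    (S : κ → Submodule F V) : Prop :=
  ∀ T ∈ 𝓠, finrank F ↥((⨆ s : κ, ⨆ _ : s ∈ T, S s) ⊓ (⨆ s : κ, ⨆ _ : s ∉ T, S s)) ≤ w

theorem Cuts.mono {V : Type*} [AddCommGroup V] [Module F V] [FiniteDimensional F V] {w : ℕ}
    {𝓠 : Set (Set κ)} {S S' : κ → Submodule F V} (h : Cuts 𝓠 w S) (hS : ∀ s, S' s ≤ S s) :
    Cuts 𝓠 w S' := by
  intro T hT
  refine le_trans (Submodule.finrank_mono ?_) (h T hT)
  exact inf_le_inf (iSup_mono fun s => iSup_mono fun _ => hS s)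
    (iSup_mono fun s => iSup_mono fun _ => hS s)

theorem map_cut {V V' : Type*} [AddCommGroup V] [Module F V] [AddCommGroup V'] [Module F V']
    (S : κ → Submodule F V) (P : V →ₗ[F] V') (q : κ → Prop) :
    (⨆ s : κ, ⨆ _ : q s, (S s).map P) = (⨆ s : κ, ⨆ _ : q s, S s).map P := by
  simp only [Submodule.map_iSup]

theorem reduce_step {V : Type*} [AddCommGroup V] [Module F V] [FiniteDimensional F V] {w m : ℕ}
    {𝓠 : Set (Set κ)} (hV : finrank F V = m + 1) (S : κ → Submodule F V) (hS : Cuts 𝓠 w S)
    (E : Submodule F V) (hE : finrank F E ≤ m) :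
    ∃ P : V →ₗ[F] (Fin m → F), Disjoint E (LinearMap.ker P) ∧
      Cuts 𝓠 w (fun s => (S s).map P) := by
  obtain ⟨v, hvE, hv⟩ : ∃ v, v ∉ E ∧ ((∃ s, v ∈ S s) ∨ v ∉ (⨆ s, S s)) := by
    by_contra hcon
    push Not at hcon
    have h1 : (⨆ s, S s) ≤ E := by
      refine iSup_le fun s x hx => ?_
      by_contra hxE
      exact (hcon x hxE).1 s hx
    have h2 : E = ⊤ := by
      rw [Submodule.eq_top_iff']
      intro x
      by_contra hxE
      exact hxE (h1 (hcon x hxE).2)
    rw [h2, finrank_top, hV] at hE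
    omega
  have hv0 : v ≠ 0 := fun h => hvE (h ▸ E.zero_mem)
  obtain ⟨P, hP⟩ := Nis.exists_line hV v hv0
  refine ⟨P, ?_, fun T hT => ?_⟩
  · rw [hP, Submodule.disjoint_span_singleton]
    intro h
    exact absurd h hvE
  · rw [map_cut, map_cut]
    refine (Submodule.finrank_mono (Nis.map_inf_le P _ _ ?_)).trans
      ((Submodule.finrank_map_le P _).trans (hS T hT))
    rw [hP]
    rcases hv with ⟨s, hs⟩ | hv
    · by_cases hst : s ∈ T
      · left
        rw [Submodule.span_singleton_le_iff_mem]
        exact (le_iSup₂_of_le (f := fun (s : κ) (_ : s ∈ T) => S s) s hst le_rfl) hs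
      · right; left
        rw [Submodule.span_singleton_le_iff_mem]
        exact (le_iSup₂_of_le (f := fun (s : κ) (_ : s ∉ T) => S s) s hst le_rfl) hs
    · right; right
      rw [← disjoint_iff, disjoint_comm]
      rw [Submodule.disjoint_span_singleton]
      intro h
      refine absurd ?_ hv
      refine (sup_le ?_ ?_ : (⨆ s : κ, ⨆ _ : s ∈ T, S s) ⊔
        (⨆ s : κ, ⨆ _ : s ∉ T, S s) ≤ ⨆ s, S s) h
      · exact iSup_le fun s => iSup_le fun _ => le_iSup S s
      · exact iSup_le fun s => iSup_le fun _ => le_iSup S s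

theorem reduce {w : ℕ} {𝓠 : Set (Set κ)} : ∀ (d r m : ℕ) (_ : m = r + d)
    (S : κ → Submodule F (Fin m → F))
    (_ : Cuts 𝓠 w S) (E : Submodule F (Fin m → F)) (_ : finrank F E = r),
    ∃ P : (Fin m → F) →ₗ[F] (Fin r → F), Disjoint E (LinearMap.ker P) ∧
      Cuts 𝓠 w (fun s => (S s).map P) := by
  intro d
  induction d with
  | zero =>
    intro r m hm S hS E hE
    obtain rfl : m = r := hm
    refine ⟨LinearMap.id, ?_, ?_⟩
    · rw [LinearMap.ker_id]
      exact disjoint_bot_right
    · simpa only [Submodule.map_id] using hS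
  | succ d ih =>
    intro r m hm S hS E hE
    obtain rfl : m = (r + d) + 1 := hm
    obtain ⟨P, h1, h2⟩ := reduce_step (m := r + d) (by rw [Module.finrank_fin_fun]) S hS E
      (by omega)
    have h3 : finrank F (E.map P) = r := by
      have h6 := LinearMap.finrank_range_of_inj (Nis.injective_of_disjoint P E h1)
      rw [LinearMap.range_domRestrict] at h6
      rw [h6]
      exact hE
    obtain ⟨Q, h4, h5⟩ := ih r (r + d) rfl (fun s => (S s).map P) h2 (E.map P) h3
    refine ⟨Q ∘ₗ P, ?_, ?_⟩
    · rw [Submodule.disjoint_def]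
      intro x hx hxk
      rw [LinearMap.mem_ker, LinearMap.comp_apply] at hxk
      have h6 : P x = 0 := by
        have h7 := Submodule.disjoint_def.1 h4 (P x) ⟨x, hx, rfl⟩ hxk
        exact h7
      exact Submodule.disjoint_def.1 h1 x hx h6
    · have h6 : (fun s => (S s).map (Q ∘ₗ P)) = fun s => ((S s).map P).map Q := by
        funext s
        rw [Submodule.map_comp]
      rw [h6]
      exact h5

/-- all cuts of the column spaces and of the row spaces have dimension at most `w` -/
def Width {m n : ℕ} (𝓠 : Set (Set κ)) (w : ℕ) (C : κ → Matrix (Fin m) (Fin n) F) : Prop :=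
  Cuts 𝓠 w (fun s => LinearMap.range (C s).mulVecLin) ∧
    Cuts 𝓠 w (fun s => LinearMap.range (C s).transpose.mulVecLin)

theorem Width.transpose {m n w : ℕ} {𝓠 : Set (Set κ)} {C : κ → Matrix (Fin m) (Fin n) F}
    (h : Width 𝓠 w C) : Width 𝓠 w (fun s => (C s).transpose) := by
  refine ⟨h.2, ?_⟩
  simp only [Matrix.transpose_transpose]
  exact h.1

theorem Width.left {m n w r : ℕ} {𝓠 : Set (Set κ)} {C : κ → Matrix (Fin m) (Fin n) F}
    (h : Width 𝓠 w C) (P : Matrix (Fin r) (Fin m) F)
    (hP : Cuts 𝓠 w (fun s => (LinearMap.range (C s).mulVecLin).map P.mulVecLin)) :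
    Width 𝓠 w (fun s => P * C s) := by
  constructor
  · have : (fun s => LinearMap.range (P * C s).mulVecLin) =
        fun s => (LinearMap.range (C s).mulVecLin).map P.mulVecLin := by
      funext s
      rw [Matrix.mulVecLin_mul, LinearMap.range_comp]
    rw [this]
    exact hP
  · refine h.2.mono fun s => ?_
    rw [Matrix.transpose_mul, Matrix.mulVecLin_mul]
    exact LinearMap.range_comp_le_range _ _

theorem left_reduce {m n w r : ℕ} {𝓠 : Set (Set κ)} {C : κ → Matrix (Fin m) (Fin n) F}
    (h : Width 𝓠 w C) (B : Matrix (Fin m) (Fin n) F) (hB : B.rank = r) :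
    ∃ P : Matrix (Fin r) (Fin m) F, (P * B).rank = r ∧ Width 𝓠 w (fun s => P * C s) := by
  have hrm : r ≤ m := by
    rw [← hB]
    exact B.rank_le_height
  obtain ⟨P, h1, h2⟩ := reduce (m - r) r m (by omega) _ h.1 (LinearMap.range B.mulVecLin) hB
  have hPP : (LinearMap.toMatrix' P).mulVecLin = P := by
    rw [← Matrix.toLin'_apply', Matrix.toLin'_toMatrix']
  refine ⟨LinearMap.toMatrix' P, ?_, h.left _ (by rw [hPP]; exact h2)⟩
  have h6 := LinearMap.finrank_range_of_inj (Nis.injective_of_disjoint P _ h1)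
  rw [LinearMap.range_domRestrict] at h6
  unfold Matrix.rank
  rw [Matrix.mulVecLin_mul, LinearMap.range_comp, hPP, h6]
  exact hB

/-- reduction of the generic rank to a determinant -/
theorem square_reduce {m n w r : ℕ} {𝓠 : Set (Set κ)} {C : κ → Matrix (Fin m) (Fin n) F}
    (h : Width 𝓠 w C) (B : Matrix (Fin m) (Fin n) F) (hB : B.rank = r) :
    ∃ (P : Matrix (Fin r) (Fin m) F) (Q : Matrix (Fin n) (Fin r) F),
      (P * B * Q).det ≠ 0 ∧ Width 𝓠 w (fun s => P * C s * Q) := by
  obtain ⟨P, h1, h2⟩ := left_reduce h B hB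
  obtain ⟨Q, h3, h4⟩ := left_reduce h2.transpose (P * B).transpose
    (by rw [Matrix.rank_transpose, h1])
  refine ⟨P, Q.transpose, ?_, ?_⟩
  · have h5 : (P * B * Q.transpose).rank = r := by
      rw [← Matrix.rank_transpose, Matrix.transpose_mul, Matrix.transpose_transpose, h3]
    intro h6
    by_contra
    have h7 : IsUnit (P * B * Q.transpose) := by
      rw [← Matrix.linearIndependent_rows_iff_isUnit, linearIndependent_iff_card_eq_finrank_span]
      rw [Fintype.card_fin, Set.finrank, ← Matrix.rank_eq_finrank_span_row, h5]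
    rw [Matrix.isUnit_iff_isUnit_det, h6] at h7
    exact not_isUnit_zero h7
  · have h5 := h4.transpose
    have h6 : (fun s => P * C s * Q.transpose) = fun s => (Q * (P * C s).transpose).transpose := by
      funext s
      rw [Matrix.transpose_mul, Matrix.transpose_transpose]
    rw [h6]
    exact h5

end cuts

end Pool.Agent.W943.Tw
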