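import Mathlib
import Pool.Agent.W943.Nis3
import Pool.Agent.W943.Nis5
import Pool.Agent.W943.Tw.T2

/-!
The determinant of a combination of matrices with a cut of dimension `w` has rank at most the
central binomial coefficient of `w` across this cut.
-/

set_option autoImplicit false

namespace Pool.Agent.W943.Tw

open MvPolynomial Module Pool.Agent.W943.Nis

section count

variable {ι : Type*} [DecidableEq ι]

theorem card_pairs (a I b J : Finset ι) {w : ℕ} (hI : I.card ≤ w) (hJ : J.card ≤ w) :
    (((Finset.Icc a (a ∪ I)) ×ˢ (Finset.Icc b (b ∪ J))).filter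
      fun p => p.1.card = p.2.card).card ≤ w.centralBinom := by
  classical
  set c := (J \ b).card + b.card - a.card with hc
  have h1 : (((Finset.Icc a (a ∪ I)) ×ˢ (Finset.Icc b (b ∪ J))).filter
      fun p => p.1.card = p.2.card).card ≤
      (Finset.powersetCard c ((I \ a).disjSum (J \ b))).card := by
    refine Finset.card_le_card_of_injOn
      (fun p => (p.1 \ a).disjSum ((J \ b) \ p.2)) ?_ ?_
    · rintro ⟨S, T⟩ hp
      rw [Finset.mem_coe, Finset.mem_filter, Finset.mem_product, Finset.mem_Icc,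
        Finset.mem_Icc] at hp
      obtain ⟨⟨⟨h1, h2⟩, h3, h4⟩, h5⟩ := hp
      simp only at h1 h2 h3 h4 h5
      rw [Finset.mem_coe, Finset.mem_powersetCard]
      constructor
      · refine Finset.disjSum_mono ?_ Finset.sdiff_subset
        intro i hi
        rw [Finset.mem_sdiff] at hi ⊢
        refine ⟨?_, hi.2⟩
        rcases Finset.mem_union.1 (h2 hi.1) with h | h
        · exact absurd h hi.2
        · exact h
      · rw [Finset.card_disjSum]
        have e1 : (S \ a).card = S.card - a.card := by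
          rw [Finset.card_sdiff_of_subset h1]
        have e2 : ((J \ b) \ T).card = (J \ b).card - (T \ b).card := by
          have h6 : (J \ b) \ T = (J \ b) \ (T \ b) := by
            ext i
            simp only [Finset.mem_sdiff]
            tauto
          rw [h6, Finset.card_sdiff_of_subset]
          intro i hi
          rw [Finset.mem_sdiff] at hi ⊢
          refine ⟨?_, hi.2⟩
          rcases Finset.mem_union.1 (h4 hi.1) with h | h
          · exact absurd h hi.2
          · exact h
        have e3 : (T \ b).card = T.card - b.card := by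
          rw [Finset.card_sdiff_of_subset h3]
        have e4 : (T \ b).card ≤ (J \ b).card := by
          refine Finset.card_le_card ?_
          intro i hi
          rw [Finset.mem_sdiff] at hi ⊢
          refine ⟨?_, hi.2⟩
          rcases Finset.mem_union.1 (h4 hi.1) with h | h
          · exact absurd h hi.2
          · exact h
        have e5 := Finset.card_le_card h1
        have e6 := Finset.card_le_card h3
        show (S \ a).card + ((J \ b) \ T).card = c
        omega
    · rintro ⟨S, T⟩ hp ⟨S', T'⟩ hp' h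
      rw [Finset.mem_coe, Finset.mem_filter, Finset.mem_product, Finset.mem_Icc,
        Finset.mem_Icc] at hp hp'
      obtain ⟨⟨⟨h1, h2⟩, h3, h4⟩, h5⟩ := hp
      obtain ⟨⟨⟨h1', h2'⟩, h3', h4'⟩, h5'⟩ := hp'
      simp only at h1 h2 h3 h4 h5 h1' h2' h3' h4' h5' h
      have hl : S \ a = S' \ a := by
        ext i
        have := Finset.ext_iff.1 h (Sum.inl i)
        simpa using this
      have hr : (J \ b) \ T = (J \ b) \ T' := by
        ext i
        have := Finset.ext_iff.1 h (Sum.inr i)
        simpa using this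
      have hS : S = S' := by
        rw [← Finset.sdiff_union_of_subset h1, ← Finset.sdiff_union_of_subset h1', hl]
      have hT : T = T' := by
        ext i
        have h6 := Finset.ext_iff.1 hr i
        simp only [Finset.mem_sdiff] at h6
        by_cases hib : i ∈ b
        · exact ⟨fun _ => h3' hib, fun _ => h3 hib⟩
        · by_cases hiJ : i ∈ J
          · tauto
          · constructor
            · intro hi
              rcases Finset.mem_union.1 (h4 hi) with h | h
              · exact absurd h hib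
              · exact absurd h hiJ
            · intro hi
              rcases Finset.mem_union.1 (h4' hi) with h | h
              · exact absurd h hib
              · exact absurd h hiJ
      rw [hS, hT]
  refine h1.trans ?_
  rw [Finset.card_powersetCard, Finset.card_disjSum]
  have e1 : (I \ a).card ≤ w := (Finset.card_le_card Finset.sdiff_subset).trans hI
  have e2 : (J \ b).card ≤ w := (Finset.card_le_card Finset.sdiff_subset).trans hJ
  exact (Nat.choose_le_choose c (by omega)).trans (Nat.choose_le_centralBinom c w)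

end count

section det

variable {F A ι : Type*} [CommRing F] [CommRing A] [Algebra F A] [Fintype ι] [DecidableEq ι]

theorem det_cut' (S1 S2 : Subalgebra F A) (X Y : Matrix ι ι A) (hX : ∀ i j, X i j ∈ S1)
    (hY : ∀ i j, Y i j ∈ S2) (a I b J : Finset ι)
    (hX1 : ∀ i, i ∉ a ∪ I → ∀ j, X i j = 0) (hX2 : ∀ j, j ∉ b ∪ J → ∀ i, X i j = 0)
    (hY1 : ∀ i ∈ a, ∀ j, Y i j = 0) (hY2 : ∀ j ∈ b, ∀ i, Y i j = 0) :
    ∃ g h : Finset ι × Finset ι → A, (∀ p, g p ∈ S1) ∧ (∀ p, h p ∈ S2) ∧
      (X + Y).det = ∑ p ∈ ((Finset.Icc a (a ∪ I)) ×ˢ (Finset.Icc b (b ∪ J))).filter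
        (fun p => p.1.card = p.2.card), g p * h p := by
  have h1 : ∀ p : Finset ι × Finset ι, ∃ g ∈ S1, ∃ h ∈ S2, (mix X Y p.1 p.2).det = g * h := by
    intro p
    refine det_split S1 S2 (mix X Y p.1 p.2) p.1 p.2 ?_ ?_ ?_ ?_
    · intro j hj i hi
      simp [mix, hj, hi]
    · intro j hj i hi
      simp [mix, hj, hi]
    · intro j hj i hi
      simp only [mix, hj, hi, if_true]
      exact hX _ _
    · intro j hj i hi
      simp only [mix, hj, hi, if_false]
      exact hY _ _
  choose g hg h hh hgh using h1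
  refine ⟨g, h, hg, hh, ?_⟩
  rw [det_add_eq, ← Finset.sum_product', ← Finset.sum_congr rfl fun p _ => hgh p]
  symm
  apply Finset.sum_subset
  · intro p _
    rw [Finset.mem_product]
    exact ⟨Finset.mem_univ _, Finset.mem_univ _⟩
  · intro p _ hp
    rw [Finset.mem_filter, Finset.mem_product, Finset.mem_Icc, Finset.mem_Icc] at hp
    by_cases hcard : p.1.card = p.2.card
    swap
    · refine det_zero_of_card (mix X Y p.1 p.2) p.1 p.2 ?_ ?_ hcard
      · intro j hj i hi
        simp [mix, hj, hi]
      · intro j hj i hi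
        simp [mix, hj, hi]
    by_cases h2 : a ≤ p.1
    · by_cases h3 : p.1 ≤ a ∪ I
      · by_cases h4 : b ≤ p.2
        · by_cases h5 : p.2 ≤ b ∪ J
          · exact absurd ⟨⟨⟨h2, h3⟩, h4, h5⟩, hcard⟩ hp
          · obtain ⟨j, hj, hj'⟩ := Finset.not_subset.1 h5
            refine Matrix.det_eq_zero_of_row_eq_zero j fun i => ?_
            simp [mix, hj, hX2 j hj' i]
        · obtain ⟨j, hj, hj'⟩ := Finset.not_subset.1 h4
          refine Matrix.det_eq_zero_of_row_eq_zero j fun i => ?_
          simp [mix, hj', hY2 j hj i]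
      · obtain ⟨i, hi, hi'⟩ := Finset.not_subset.1 h3
        refine Matrix.det_eq_zero_of_column_eq_zero i fun j => ?_
        simp [mix, hi, hX1 i hi' j]
    · obtain ⟨i, hi, hi'⟩ := Finset.not_subset.1 h2
      refine Matrix.det_eq_zero_of_column_eq_zero i fun j => ?_
      simp [mix, hi', hY1 i hi j]

end det

section rank

variable {n N : ℕ} {κ : Type*} [Fintype κ]

theorem rankLE_of_fintype {ι : Type*} [Fintype ι] {W : ℕ} {T : Set (Fin n)}
    (p q : ι → MvPolynomial (Fin n) ℂ) (hp : ∀ a, p a ∈ supported ℂ T)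
    (hq : ∀ a, q a ∈ supported ℂ Tᶜ) (hW : Fintype.card ι ≤ W) : RankLE W T (∑ a, p a * q a) := by
  classical
  obtain ⟨e⟩ : Nonempty (ι ↪ Fin W) :=
    Function.Embedding.nonempty_of_card_le (by rwa [Fintype.card_fin])
  refine ⟨Function.extend e p 0, Function.extend e q 0, fun a => ?_, fun a => ?_, ?_⟩
  · by_cases h : ∃ i, e i = a
    · obtain ⟨i, rfl⟩ := h
      rw [e.injective.extend_apply]
      exact hp i
    · rw [Function.extend_apply' _ _ _ h]
      exact Subalgebra.zero_mem _
  · by_cases h : ∃ i, e i = a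
    · obtain ⟨i, rfl⟩ := h
      rw [e.injective.extend_apply]
      exact hq i
    · rw [Function.extend_apply' _ _ _ h]
      exact Subalgebra.zero_mem _
  · refine Fintype.sum_of_injective e e.injective _ _ (fun a ha => ?_) fun i => ?_
    · rw [Function.extend_apply' _ _ _ (fun h => ha h)]
      simp
    · rw [e.injective.extend_apply, e.injective.extend_apply]

/-- the combination of the matrices `B s` with polynomial coefficients `z s` -/
noncomputable def combo {m m' : ℕ} (z : κ → MvPolynomial (Fin n) ℂ)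
    (B : κ → Matrix (Fin m) (Fin m') ℂ) : Matrix (Fin m) (Fin m') (MvPolynomial (Fin n) ℂ) :=
  ∑ s, z s • (B s).map C

theorem combo_conj (z : κ → MvPolynomial (Fin n) ℂ) (B : κ → Matrix (Fin N) (Fin N) ℂ)
    (P Q : Matrix (Fin N) (Fin N) ℂ) :
    P.map C * combo z B * Q.map C = combo z (fun s => P * B s * Q) := by
  unfold combo
  rw [Matrix.mul_sum, Matrix.sum_mul]
  refine Finset.sum_congr rfl fun s _ => ?_
  rw [Matrix.mul_smul, Matrix.smul_mul, Matrix.map_mul, Matrix.map_mul]

theorem det_combo_conj (z : κ → MvPolynomial (Fin n) ℂ) (B : κ → Matrix (Fin N) (Fin N) ℂ)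
    (P Q : Matrix (Fin N) (Fin N) ℂ) :
    (combo z (fun s => P * B s * Q)).det = C (P.det * Q.det) * (combo z B).det := by
  rw [← combo_conj, Matrix.det_mul, Matrix.det_mul]
  have h1 : ∀ P : Matrix (Fin N) (Fin N) ℂ,
      (P.map (C : ℂ →+* MvPolynomial (Fin n) ℂ)).det = C P.det := by
    intro P
    rw [RingHom.map_det]
    rfl
  rw [h1, h1, C_mul]
  ring

omit [Fintype κ] in
theorem sum_apply' (z : κ → MvPolynomial (Fin n) ℂ) (B : κ → Matrix (Fin N) (Fin N) ℂ)
    (S : Finset κ) (i j : Fin N) :
    (∑ s ∈ S, z s • (B s).map (C : ℂ → MvPolynomial (Fin n) ℂ)) i j = ∑ s ∈ S, z s * C (B s i j) := by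
  rw [Matrix.sum_apply]
  rfl

/-- the determinant has a small rank across a small cut -/
theorem rank_det {w : ℕ} (z : κ → MvPolynomial (Fin n) ℂ) (B : κ → Matrix (Fin N) (Fin N) ℂ)
    (Q : Set κ) (T : Set (Fin n)) (hz1 : ∀ s ∈ Q, z s ∈ supported ℂ T)
    (hz2 : ∀ s, s ∉ Q → z s ∈ supported ℂ Tᶜ) (hB : Width {Q} w B) :
    RankLE w.centralBinom T (combo z B).det := by
  classical
  obtain ⟨P, a, I, hP, hI, hP1, hP2⟩ := adapt _ _ (hB.1 Q rfl)
  obtain ⟨P', b, J, hQ, hJ, hQ1, hQ2⟩ := adapt _ _ (hB.2 Q rfl)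
  have hlt : ∀ s : κ, s ∈ Q → LinearMap.range (B s).mulVecLin ≤
      ⨆ s : κ, ⨆ _ : s ∈ Q, LinearMap.range (B s).mulVecLin := fun s hs =>
    le_iSup₂_of_le (f := fun (s : κ) (_ : s ∈ Q) => LinearMap.range (B s).mulVecLin)
      s hs le_rfl
  have hge : ∀ s : κ, s ∉ Q → LinearMap.range (B s).mulVecLin ≤
      ⨆ s : κ, ⨆ _ : s ∉ Q, LinearMap.range (B s).mulVecLin := fun s hs =>
    le_iSup₂_of_le (f := fun (s : κ) (_ : s ∉ Q) => LinearMap.range (B s).mulVecLin)
      s hs le_rfl
  have hlt' : ∀ s : κ, s ∈ Q → LinearMap.range (B s).transpose.mulVecLin ≤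
      ⨆ s : κ, ⨆ _ : s ∈ Q, LinearMap.range (B s).transpose.mulVecLin := fun s hs =>
    le_iSup₂_of_le (f := fun (s : κ) (_ : s ∈ Q) =>
      LinearMap.range (B s).transpose.mulVecLin) s hs le_rfl
  have hge' : ∀ s : κ, s ∉ Q → LinearMap.range (B s).transpose.mulVecLin ≤
      ⨆ s : κ, ⨆ _ : s ∉ Q, LinearMap.range (B s).transpose.mulVecLin := fun s hs =>
    le_iSup₂_of_le (f := fun (s : κ) (_ : s ∉ Q) =>
      LinearMap.range (B s).transpose.mulVecLin) s hs le_rfl
  set D : κ → Matrix (Fin N) (Fin N) ℂ := fun s => P * B s * P'.transpose with hD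
  have hDt : ∀ s i j, D s i j = (P' * (B s).transpose * P.transpose) j i := by
    intro s i j
    rw [hD]
    have : (P' * (B s).transpose * P.transpose) = (P * B s * P'.transpose).transpose := by
      rw [Matrix.transpose_mul, Matrix.transpose_mul, Matrix.transpose_transpose, Matrix.mul_assoc]
    rw [this, Matrix.transpose_apply]
  have hx1 : ∀ s : κ, s ∈ Q → ∀ i, i ∉ a ∪ I → ∀ j, D s i j = 0 := fun s hs i hi j =>
    row_zero' P (B s) _ i (fun u hu => hP1 u (hlt s hs hu) i hi) j
  have hx2 : ∀ s : κ, s ∈ Q → ∀ j, j ∉ b ∪ J → ∀ i, D s i j = 0 := fun s hs j hj i => by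
    rw [hDt]
    exact row_zero' P' _ _ j (fun u hu => hQ1 u (hlt' s hs hu) j hj) i
  have hy1 : ∀ s : κ, s ∉ Q → ∀ i ∈ a, ∀ j, D s i j = 0 := fun s hs i hi j =>
    row_zero' P (B s) _ i (fun u hu => hP2 u (hge s hs hu) i hi) j
  have hy2 : ∀ s : κ, s ∉ Q → ∀ j ∈ b, ∀ i, D s i j = 0 := fun s hs j hj i => by
    rw [hDt]
    exact row_zero' P' _ _ j (fun u hu => hQ2 u (hge' s hs hu) j hj) i
  set S := (Finset.univ : Finset κ).filter (fun s => s ∈ Q) with hS
  set S' := (Finset.univ : Finset κ).filter (fun s => ¬ s ∈ Q) with hS'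
  obtain ⟨g, h, hg, hh, hgh⟩ := det_cut' (supported ℂ T) (supported ℂ Tᶜ)
    (∑ s ∈ S, z s • (D s).map (C : ℂ → MvPolynomial (Fin n) ℂ))
    (∑ s ∈ S', z s • (D s).map (C : ℂ → MvPolynomial (Fin n) ℂ)) (fun i j => by
      rw [sum_apply']
      exact Subalgebra.sum_mem _ fun s hs => Subalgebra.mul_mem _
        (hz1 s (Finset.mem_filter.1 hs).2) (Subalgebra.algebraMap_mem _ _)) (fun i j => by
      rw [sum_apply']
      exact Subalgebra.sum_mem _ fun s hs => Subalgebra.mul_mem _
        (hz2 s (Finset.mem_filter.1 hs).2) (Subalgebra.algebraMap_mem _ _))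
      a I b J (fun i hi j => by
      rw [sum_apply']
      exact Finset.sum_eq_zero fun s hs => by
        rw [hx1 s (Finset.mem_filter.1 hs).2 i hi j, C_0, mul_zero]) (fun j hj i => by
      rw [sum_apply']
      exact Finset.sum_eq_zero fun s hs => by
        rw [hx2 s (Finset.mem_filter.1 hs).2 j hj i, C_0, mul_zero]) (fun i hi j => by
      rw [sum_apply']
      exact Finset.sum_eq_zero fun s hs => by
        rw [hy1 s (Finset.mem_filter.1 hs).2 i hi j, C_0, mul_zero]) (fun j hj i => by
      rw [sum_apply']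
      exact Finset.sum_eq_zero fun s hs => by
        rw [hy2 s (Finset.mem_filter.1 hs).2 j hj i, C_0, mul_zero])
  have h1 : (∑ s ∈ S, z s • (D s).map (C : ℂ → MvPolynomial (Fin n) ℂ)) +
      (∑ s ∈ S', z s • (D s).map (C : ℂ → MvPolynomial (Fin n) ℂ)) = combo z D := by
    exact Finset.sum_filter_add_sum_filter_not _ _ _
  rw [h1, hD, det_combo_conj] at hgh
  set K := ((Finset.Icc a (a ∪ I)) ×ˢ (Finset.Icc b (b ∪ J))).filter
    (fun p => p.1.card = p.2.card) with hK
  set c : ℂ := (P.det * P'.transpose.det)⁻¹ with hc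
  have hc1 : c * (P.det * P'.transpose.det) = 1 := by
    rw [hc, inv_mul_cancel₀]
    rw [Matrix.det_transpose]
    exact mul_ne_zero hP hQ
  have h2 : (combo z B).det = ∑ p : {p // p ∈ K}, (C c * g p.1) * h p.1 := by
    have h3 : (combo z B).det = C c * (C (P.det * P'.transpose.det) * (combo z B).det) := by
      rw [← mul_assoc, ← C_mul, hc1, C_1, one_mul]
    rw [h3, hgh, Finset.mul_sum, ← Finset.sum_coe_sort K]
    refine Finset.sum_congr rfl fun p _ => ?_
    rw [mul_assoc]
  rw [h2]
  refine rankLE_of_fintype _ _ (fun p => ?_) (fun p => hh _) ?_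
  · exact Subalgebra.mul_mem _ (Subalgebra.algebraMap_mem _ _) (hg _)
  · rw [Fintype.card_coe]
    exact card_pairs a I b J hI hJ

end rank

end Pool.Agent.W943.Tw
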