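import Mathlib
import Pool.Agent.W943.Tw.Def
import Pool.Agent.W943.Tw.T3
import Pool.Agent.W943.Cut.C6

/-!
Trees, the class of the determinants.
-/

set_option autoImplicit false

namespace Pool.Agent.W943.Tw

open MvPolynomial Module Pool.Agent.W943.Cut

section tree

variable {R : ℕ}

/-- the sets of indices of the subtrees -/
def Tree.sets : Tree R → Set (Finset (Fin R))
  | .leaf S => {S}
  | .node l r => insert (l.set ∪ r.set) (l.sets ∪ r.sets)

theorem Tree.set_mem_sets (t : Tree R) : t.set ∈ t.sets := by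
  cases t with
  | leaf S => exact rfl
  | node l r => exact Or.inl rfl

theorem Tree.sets_subset (t : Tree R) : ∀ T ∈ t.sets, T ⊆ t.set := by
  induction t with
  | leaf S => rintro T rfl; exact le_rfl
  | node l r ihl ihr =>
    rintro T (rfl | h | h)
    · exact le_rfl
    · exact (ihl T h).trans Finset.subset_union_left
    · exact (ihr T h).trans Finset.subset_union_right

theorem Tree.Good.prop {b : ℕ} {P : Finset (Fin R) → Prop} {t : Tree R} (h : t.Good b P) :
    ∀ T ∈ t.sets, P T := by
  induction t with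
  | leaf S => rintro T rfl; exact h.2
  | node l r ihl ihr =>
    obtain ⟨_, h2, h3, h4⟩ := h
    rintro T (rfl | h | h)
    · exact h2
    · exact ihl h3 T h
    · exact ihr h4 T h

theorem Tree.Good.laminar {b : ℕ} {P : Finset (Fin R) → Prop} {t : Tree R} (h : t.Good b P) :
    ∀ T ∈ t.sets, ∀ T' ∈ t.sets, T' ⊆ T ∨ T ⊆ T' ∨ Disjoint T T' := by
  induction t with
  | leaf S => rintro T rfl T' rfl; exact Or.inl le_rfl
  | node l r ihl ihr =>
    obtain ⟨h1, _, h3, h4⟩ := h
    rintro T (rfl | h | h) T' (rfl | h' | h')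
    · exact Or.inl le_rfl
    · exact Or.inl ((l.sets_subset T' h').trans Finset.subset_union_left)
    · exact Or.inl ((r.sets_subset T' h').trans Finset.subset_union_right)
    · exact Or.inr (Or.inl ((l.sets_subset T h).trans Finset.subset_union_left))
    · exact ihl h3 T h T' h'
    · exact Or.inr (Or.inr (h1.mono (l.sets_subset T h) (r.sets_subset T' h')))
    · exact Or.inr (Or.inl ((r.sets_subset T h).trans Finset.subset_union_right))
    · exact Or.inr (Or.inr (h1.symm.mono (r.sets_subset T h) (l.sets_subset T' h')))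
    · exact ihr h4 T h T' h'

theorem Tree.Good.balanced {b : ℕ} {P : Finset (Fin R) → Prop} {t : Tree R} (h : t.Good b P)
    (V : Finset (Fin R)) (hb : 3 * b ≤ 2 * V.card) (hV : 2 * V.card < 3 * (V ∩ t.set).card) :
    ∃ T ∈ t.sets, V.card ≤ 3 * (V ∩ T).card ∧ 3 * (V ∩ T).card ≤ 2 * V.card := by
  induction t with
  | leaf S =>
    exfalso
    have h1 : (V ∩ S).card ≤ b := (Finset.card_le_card Finset.inter_subset_right).trans h.1
    have h2 : (V ∩ (Tree.leaf S).set).card = (V ∩ S).card := rfl
    omega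
  | node l r ihl ihr =>
    obtain ⟨h1, _, h3, h4⟩ := h
    have h5 : (V ∩ (Tree.node l r).set).card = (V ∩ l.set).card + (V ∩ r.set).card := by
      rw [show (Tree.node l r).set = l.set ∪ r.set from rfl, Finset.inter_union_distrib_left]
      exact Finset.card_union_of_disjoint (h1.mono Finset.inter_subset_right
        Finset.inter_subset_right)
    rw [h5] at hV
    by_cases hl : 2 * V.card < 3 * (V ∩ l.set).card
    · obtain ⟨T, hT, h6⟩ := ihl h3 hl
      exact ⟨T, Or.inr (Or.inl hT), h6⟩
    by_cases hr : 2 * V.card < 3 * (V ∩ r.set).card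
    · obtain ⟨T, hT, h6⟩ := ihr h4 hr
      exact ⟨T, Or.inr (Or.inr hT), h6⟩
    by_cases hc : (V ∩ l.set).card ≤ (V ∩ r.set).card
    · exact ⟨r.set, Or.inr (Or.inr r.set_mem_sets), by omega, by omega⟩
    · exact ⟨l.set, Or.inr (Or.inl l.set_mem_sets), by omega, by omega⟩

end tree

section cls

variable {R N N' n : ℕ}

theorem CutLE.width {w : ℕ} {B : Fin R → Matrix (Fin N) (Fin N') ℂ} {T : Finset (Fin R)}
    (h : CutLE w B T) : Width {(T : Set (Fin R))} w B := by
  constructor
  · rintro _ rfl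
    exact h.1
  · rintro _ rfl
    exact h.2

/-- the determinant of the generic combination of matrices of small tree width -/
theorem det_cls {b w k d : ℕ} {B : Fin R → Matrix (Fin N) (Fin N) ℂ} {t : Tree R}
    (ht : t.set = Finset.univ) (hg : t.Good b (CutLE w B)) (hb : 3 * b ≤ 2 * (k + 1))
    (hR : 2 ^ d * R ≤ k * 3 ^ d)
    (h0 : (combo (X : Fin R → MvPolynomial (Fin R) ℂ) B).det ≠ 0) :
    Cls R (k + (w.centralBinom - 1) * d) (combo (X : Fin R → MvPolynomial (Fin R) ℂ) B).det := by
  classical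
  refine laminar_mem ((fun T : Finset (Fin R) => (T : Set (Fin R))) '' t.sets) ?_ k ?_
    (Nat.centralBinom_pos w) d Finset.univ _ ?_ ?_ ?_ h0
  · rintro _ ⟨T, hT, rfl⟩ _ ⟨T', hT', rfl⟩
    rcases hg.laminar T hT T' hT' with h | h | h
    · exact Or.inl (Finset.coe_subset.2 h)
    · exact Or.inr (Or.inl (Finset.coe_subset.2 h))
    · refine Or.inr (Or.inr ?_)
      rw [Set.subset_compl_iff_disjoint_left]
      exact Finset.disjoint_coe.2 h
  · intro V hV
    obtain ⟨T, hT, h1, h2⟩ := hg.balanced V (by omega) (by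
      rw [ht, Finset.inter_univ]
      omega)
    exact ⟨T, ⟨T, hT, rfl⟩, h1, h2⟩
  · rw [Finset.card_univ, Fintype.card_fin]
    exact hR
  · rw [Finset.coe_univ, supported_univ]
    trivial
  · rintro _ ⟨T, hT, rfl⟩
    refine rank_det (X : Fin R → MvPolynomial (Fin R) ℂ) B (T : Set (Fin R)) (T : Set (Fin R))
      (fun s hs => X_mem_supported.2 hs) (fun s hs => X_mem_supported.2 hs) ?_
    exact CutLE.width (hg.prop T hT)

theorem aeval_det (z : Fin R → MvPolynomial (Fin n) ℂ) (B : Fin R → Matrix (Fin N) (Fin N) ℂ) :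
    aeval z (combo (X : Fin R → MvPolynomial (Fin R) ℂ) B).det = (combo z B).det := by
  rw [AlgHom.map_det]
  congr 1
  ext1 i j
  unfold combo
  simp only [AlgHom.mapMatrix_apply, Matrix.map_apply, Matrix.sum_apply, Matrix.smul_apply,
    map_sum, smul_eq_mul, map_mul, aeval_X]
  refine Finset.sum_congr rfl fun s _ => ?_
  rw [aeval_C]
  rfl

/-- the linear forms as polynomials -/
noncomputable def form {m n : ℕ} (L : Fin m → Fin n → ℂ) (j : Fin m) : MvPolynomial (Fin n) ℂ :=
  ∑ k, C (L j k) * X k + C 0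

theorem eval_form {m n : ℕ} (L : Fin m → Fin n → ℂ) (j : Fin m) (q : Fin n → ℂ) :
    eval q (form L j) = ∑ k, L j k * q k := by
  simp [form]

theorem totalDegree_form {m n : ℕ} (L : Fin m → Fin n → ℂ) (j : Fin m) :
    (form L j).totalDegree ≤ 1 := by
  unfold form
  rw [map_zero, add_zero]
  refine totalDegree_finsetSum_le fun k _ => ?_
  refine (totalDegree_mul _ _).trans ?_
  rw [totalDegree_C, totalDegree_X, zero_add]

theorem totalDegree_det {r : ℕ} (Z : Matrix (Fin r) (Fin r) (MvPolynomial (Fin n) ℂ))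
    (h : ∀ i j, (Z i j).totalDegree ≤ 1) : Z.det.totalDegree ≤ r := by
  rw [Matrix.det_apply']
  refine totalDegree_finsetSum_le fun σ _ => ?_
  refine (totalDegree_mul _ _).trans ?_
  have h1 : ((((Equiv.Perm.sign σ : ℤˣ) : ℤ)) : MvPolynomial (Fin n) ℂ).totalDegree = 0 := by
    rw [show ((((Equiv.Perm.sign σ : ℤˣ) : ℤ)) : MvPolynomial (Fin n) ℂ) =
      C (((Equiv.Perm.sign σ : ℤˣ) : ℤ) : ℂ) by simp, totalDegree_C]
  rw [h1, zero_add]
  refine (totalDegree_finsetProd _ _).trans ?_
  refine (Finset.sum_le_sum fun i _ => h (σ i) i).trans ?_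
  simp

theorem totalDegree_combo (L : Fin R → Fin n → ℂ) (B : Fin R → Matrix (Fin N) (Fin N') ℂ)
    (i : Fin N) (j : Fin N') : (combo (form L) B i j).totalDegree ≤ 1 := by
  unfold combo
  rw [Matrix.sum_apply]
  refine totalDegree_finsetSum_le fun t _ => ?_
  rw [Matrix.smul_apply, Matrix.map_apply, smul_eq_mul]
  refine (totalDegree_mul _ _).trans ?_
  rw [totalDegree_C, add_zero]
  exact totalDegree_form L _

theorem eval_combo (L : Fin R → Fin n → ℂ) (B : Fin R → Matrix (Fin N) (Fin N) ℂ)
    (q : Fin n → ℂ) :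
    eval q (combo (form L) B).det = (∑ t, (∑ k, L t k * q k) • B t).det := by
  rw [RingHom.map_det]
  congr 1
  ext1 i j
  unfold combo
  simp only [RingHom.mapMatrix_apply, Matrix.map_apply, Matrix.sum_apply, Matrix.smul_apply,
    map_sum, smul_eq_mul, map_mul, eval_C, eval_form]

/-- hitting the determinants -/
theorem hit_det {r b w k d D : ℕ} (L : Fin R → Fin n → ℂ) (hL : LinearIndependent ℂ L)
    {B : Fin R → Matrix (Fin r) (Fin r) ℂ} {t : Tree R}
    (ht : t.set = Finset.univ) (hg : t.Good b (CutLE w B)) (hb : 3 * b ≤ 2 * (k + 1))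
    (hR : 2 ^ d * n ≤ k * 3 ^ d) (hr : r ≤ D) (h0 : (combo (form L) B).det ≠ 0) :
    ∃ p ∈ Cut.points n (k + (w.centralBinom - 1) * d) D,
      eval (fun i => (p i : ℂ)) (combo (form L) B).det ≠ 0 := by
  have hRn : R ≤ n := by
    have := hL.fintype_card_le_finrank
    simpa using this
  have h1 : (combo (X : Fin R → MvPolynomial (Fin R) ℂ) B).det ≠ 0 := by
    intro h
    apply h0
    rw [← aeval_det, h, map_zero]
  have h2 := det_cls ht hg hb (le_trans (Nat.mul_le_mul_left _ hRn) hR) h1
  have h3 : Cls n (k + (w.centralBinom - 1) * d) (combo (form L) B).det := by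
    rw [← aeval_det]
    exact affine h2 L (fun _ => 0) hL
  refine Cut.hit ?_ [(combo (form L) B).det] ?_ (by simp)
  · exact (totalDegree_det _ (totalDegree_combo L B)).trans hr
  · intro g hgm
    rw [List.mem_singleton] at hgm
    rw [hgm]
    exact h3

end cls

end Pool.Agent.W943.Tw
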