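import Mathlib
import Pool.Agent.W943.Tw.T4

/-!
Ranks, integer matrices, bases, supports.
-/

set_option autoImplicit false

namespace Pool.Agent.W943.Tw

open MvPolynomial Module Pool.Agent.W943.Cut

theorem Tree.Good.mono' {R b : ℕ} {P P' : Finset (Fin R) → Prop} {t : Tree R}
    (h : t.Good b P) (hP : ∀ T ∈ t.sets, P T → P' T) : t.Good b P' := by
  induction t with
  | leaf S => exact ⟨h.1, hP S rfl h.2⟩
  | node l r ihl ihr =>
    obtain ⟨h1, h2, h3, h4⟩ := h
    exact ⟨h1, hP _ (Or.inl rfl) h2, ihl h3 fun T hT => hP T (Or.inr (Or.inl hT)),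
      ihr h4 fun T hT => hP T (Or.inr (Or.inr hT))⟩

theorem width_of_cut {N N' R w : ℕ} {B : Fin R → Matrix (Fin N) (Fin N') ℂ}
    {𝓠 : Set (Set (Fin R))} {𝓣 : Set (Finset (Fin R))} (h𝓠 : ∀ Q ∈ 𝓠, ∃ T ∈ 𝓣, Q = T)
    (h : ∀ T ∈ 𝓣, CutLE w B T) : Width 𝓠 w B := by
  constructor
  · intro Q hQ
    obtain ⟨T, hT, rfl⟩ := h𝓠 Q hQ
    exact (h T hT).1
  · intro Q hQ
    obtain ⟨T, hT, rfl⟩ := h𝓠 Q hQ
    exact (h T hT).2

/-- the maximal rank is attained -/
theorem rank_hit {n N N' b w k d D : ℕ} {A : Fin n → Matrix (Fin N) (Fin N') ℂ}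
    (hA : Hidden b w A) (hb : 3 * b ≤ 2 * (k + 1)) (hn : 2 ^ d * n ≤ k * 3 ^ d)
    (hD : min N N' ≤ D) (q : Fin n → ℂ) :
    ∃ p ∈ Cut.points n (k + (w.centralBinom - 1) * d) D,
      (∑ k, q k • A k).rank ≤ (∑ k, (p k : ℂ) • A k).rank := by
  obtain ⟨R, B, L, hL, ⟨t, ht, hg⟩, hAB⟩ := hA
  obtain ⟨r, hr⟩ : ∃ r, (∑ k, q k • A k).rank = r := ⟨_, rfl⟩
  have hwid : Width ((fun T : Finset (Fin R) => (T : Set (Fin R))) '' t.sets) w B := by
    refine width_of_cut (𝓣 := t.sets) ?_ hg.prop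
    rintro _ ⟨T, hT, rfl⟩
    exact ⟨T, hT, rfl⟩
  obtain ⟨P, Q, h1, h2⟩ := square_reduce hwid (∑ k, q k • A k) hr
  have hg2 : t.Good b (CutLE w (fun t => P * B t * Q)) :=
    hg.mono' fun T hT _ => ⟨h2.1 _ ⟨T, hT, rfl⟩, h2.2 _ ⟨T, hT, rfl⟩⟩
  have hrd : r ≤ D := by
    rw [← hr]
    refine le_trans (le_min ?_ ?_) hD
    · exact Matrix.rank_le_height _
    · exact Matrix.rank_le_width _
  have h3 : ∀ q : Fin n → ℂ, (∑ t, (∑ k, L t k * q k) • (P * B t * Q)) =
      P * (∑ k, q k • A k) * Q := by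
    intro q
    simp only [hAB, Finset.smul_sum, Finset.sum_smul, Matrix.mul_sum, Matrix.sum_mul]
    rw [Finset.sum_comm]
    refine Finset.sum_congr rfl fun k _ => Finset.sum_congr rfl fun t _ => ?_
    rw [smul_smul, Matrix.mul_smul, Matrix.smul_mul, mul_comm]
  have h4 : (combo (form L) (fun t => P * B t * Q)).det ≠ 0 := by
    intro h
    apply h1
    rw [← h3 q, ← eval_combo, h, map_zero]
  obtain ⟨p, hp, h5⟩ := hit_det L hL ht hg2 hb hn hrd h4
  refine ⟨p, hp, ?_⟩
  rw [hr]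
  rw [eval_combo, h3] at h5
  have h6 : (P * (∑ k, (p k : ℂ) • A k) * Q).rank = r := by
    rw [Matrix.rank_of_isUnit _ ((Matrix.isUnit_iff_isUnit_det _).2 (isUnit_iff_ne_zero.2 h5)),
      Fintype.card_fin]
  calc r = (P * (∑ k, (p k : ℂ) • A k) * Q).rank := h6.symm
    _ ≤ (P * (∑ k, (p k : ℂ) • A k)).rank := Matrix.rank_mul_le_left _ _
    _ ≤ _ := Matrix.rank_mul_le_right _ _

/-- spaces with a basis of small tree width -/
theorem hidden_of_basis {n N N' R b w : ℕ} (A : Fin n → Matrix (Fin N) (Fin N') ℂ)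
    (B : Fin R → Matrix (Fin N) (Fin N') ℂ) (hB : LinearIndependent ℂ B)
    (hAB : Submodule.span ℂ (Set.range A) = Submodule.span ℂ (Set.range B))
    (hw : TreeWidth b w B) : Hidden b w A := by
  classical
  have h1 : ∀ k, ∃ c : Fin R → ℂ, ∑ t, c t • B t = A k := fun k => by
    rw [← Submodule.mem_span_range_iff_exists_fun, ← hAB]
    exact Submodule.subset_span ⟨k, rfl⟩
  have h2 : ∀ t, ∃ c : Fin n → ℂ, ∑ k, c k • A k = B t := fun t => by
    rw [← Submodule.mem_span_range_iff_exists_fun, hAB]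
    exact Submodule.subset_span ⟨t, rfl⟩
  choose L hL using h1
  choose G hG using h2
  have h3 : ∀ t s, ∑ k, G t k * L k s = if t = s then 1 else 0 := by
    intro t s
    have h4 : ∑ s, (∑ k, G t k * L k s) • B s = ∑ s, (if t = s then (1 : ℂ) else 0) • B s := by
      rw [show ∑ s, (if t = s then (1 : ℂ) else 0) • B s = B t by simp]
      rw [← hG t]
      simp only [← hL, Finset.smul_sum, Finset.sum_smul, smul_smul]
      rw [Finset.sum_comm]
    have h5 := linearIndependent_iff'.1 hB Finset.univ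
      (fun s => (∑ k, G t k * L k s) - (if t = s then (1 : ℂ) else 0))
      (by simp only [sub_smul, Finset.sum_sub_distrib]; rw [h4, sub_self]) s (Finset.mem_univ s)
    exact sub_eq_zero.1 h5
  refine ⟨R, B, fun t k => L k t, ?_, hw, fun k => (hL k).symm⟩
  rw [Fintype.linearIndependent_iff]
  intro g hg t
  have h4 : ∀ k, ∑ s, g s * L k s = 0 := by
    intro k
    have := congrFun hg k
    simpa using this
  have h5 : g t = ∑ k, G t k * ∑ s, g s * L k s := by
    simp only [Finset.mul_sum]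
    rw [Finset.sum_comm]
    have h6 : ∀ s, ∑ k, G t k * (g s * L k s) = g s * (if t = s then 1 else 0) := by
      intro s
      rw [← h3 t s, Finset.mul_sum]
      exact Finset.sum_congr rfl fun k _ => by ring
    simp only [h6]
    simp
  rw [h5]
  simp only [h4]
  simp

theorem inf_le_of_support {N R w : ℕ} (S : Fin R → Submodule ℂ (Fin N → ℂ))
    (I : Fin R → Finset (Fin N)) (hI : ∀ s, ∀ v ∈ S s, ∀ i, i ∉ I s → v i = 0)
    (T : Finset (Fin R)) (h : (T.biUnion I ∩ Tᶜ.biUnion I).card ≤ w) :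
    Module.finrank ℂ ↥((⨆ s : Fin R, ⨆ _ : s ∈ T, S s) ⊓
      (⨆ s : Fin R, ⨆ _ : s ∉ T, S s)) ≤ w := by
  classical
  have h1 : ∀ (P : Fin R → Prop) (K : Finset (Fin N)), (∀ s, P s → I s ⊆ K) →
      ∀ v ∈ (⨆ s : Fin R, ⨆ _ : P s, S s), ∀ i, i ∉ K → v i = 0 := by
    intro P K hK v hv i hi
    have h2 : (⨆ s : Fin R, ⨆ _ : P s, S s) ≤ LinearMap.ker (LinearMap.proj i) := by
      refine iSup_le fun s => iSup_le fun hs => ?_
      intro u hu
      rw [LinearMap.mem_ker, LinearMap.proj_apply]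
      exact hI s u hu i fun h3 => hi (hK s hs h3)
    exact h2 hv
  have h2 : (⨆ s : Fin R, ⨆ _ : s ∈ T, S s) ⊓ (⨆ s : Fin R, ⨆ _ : s ∉ T, S s) ≤
      Submodule.span ℂ (((T.biUnion I ∩ Tᶜ.biUnion I).image
        fun i => (Pi.single i 1 : Fin N → ℂ) : Finset (Fin N → ℂ)) : Set (Fin N → ℂ)) := by
    rintro v ⟨hv1, hv2⟩
    have h3 := h1 (fun s => s ∈ T) (T.biUnion I)
      (fun s hs => Finset.subset_biUnion_of_mem I hs) v hv1
    have h4 := h1 (fun s => s ∉ T) (Tᶜ.biUnion I)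
      (fun s hs => Finset.subset_biUnion_of_mem I (Finset.mem_compl.2 hs)) v hv2
    have h5 : v = ∑ i, v i • (Pi.single i 1 : Fin N → ℂ) := by
      funext j
      rw [Finset.sum_apply]
      simp [Pi.single_apply]
    rw [h5]
    refine Submodule.sum_mem _ fun i _ => ?_
    by_cases hi : i ∈ T.biUnion I ∩ Tᶜ.biUnion I
    · exact Submodule.smul_mem _ _ (Submodule.subset_span (Finset.mem_coe.2
        (Finset.mem_image.2 ⟨i, hi, rfl⟩)))
    · have h6 : v i = 0 := by
        rw [Finset.mem_inter, not_and_or] at hi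
        rcases hi with hi | hi
        · exact h3 i hi
        · exact h4 i hi
      rw [h6, zero_smul]
      exact Submodule.zero_mem _
  refine (Submodule.finrank_mono h2).trans ?_
  refine (finrank_span_finset_le_card _).trans ?_
  exact Finset.card_image_le.trans h

/-- cuts of matrices supported on few common rows and columns -/
theorem cut_of_support {N N' R w : ℕ} (B : Fin R → Matrix (Fin N) (Fin N') ℂ)
    (I : Fin R → Finset (Fin N)) (J : Fin R → Finset (Fin N'))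
    (hB : ∀ s i j, B s i j ≠ 0 → i ∈ I s ∧ j ∈ J s) (T : Finset (Fin R))
    (hI : (T.biUnion I ∩ Tᶜ.biUnion I).card ≤ w) (hJ : (T.biUnion J ∩ Tᶜ.biUnion J).card ≤ w) :
    CutLE w B T := by
  constructor
  · refine inf_le_of_support _ I ?_ T hI
    rintro s _ ⟨u, rfl⟩ i hi
    show (B s).mulVec u i = 0
    rw [Matrix.mulVec, dotProduct]
    refine Finset.sum_eq_zero fun j _ => ?_
    by_cases h : B s i j = 0
    · rw [h, zero_mul]
    · exact absurd (hB s i j h).1 hi
  · refine inf_le_of_support _ J ?_ T hJ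
    rintro s _ ⟨u, rfl⟩ j hj
    show (B s).transpose.mulVec u j = 0
    rw [Matrix.mulVec, dotProduct]
    refine Finset.sum_eq_zero fun i _ => ?_
    rw [Matrix.transpose_apply]
    by_cases h : B s i j = 0
    · rw [h, zero_mul]
    · exact absurd (hB s i j h).2 hj

end Pool.Agent.W943.Tw
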